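import Pool.Agent.X322.Met6

set_option autoImplicit false

/-!
# Random graphs have irreducible non-metrizable consistent path systems

The probability that `G(n,1/2)` admits a consistent path system which is irreducible and
non-metrizable tends to `1`.
-/

namespace Pool.Agent.Results.MP_696e10_co.IrreducibleNonmetrizable

open Filter Topology

variable {V : Type}

/-- `l` is (the vertex list of) a simple path of `G` from `u` to `v`. -/
def IsSimplePath (G : SimpleGraph V) (u v : V) (l : List V) : Prop :=
  l.head? = some u ∧ l.getLast? = some v ∧ l.IsChain G.Adj ∧ l.Nodup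

/-- A path system: for every pair `u, v` exactly one simple path of `G` joining `u` and `v`
(`P v u` is the same path, listed backwards). -/
def IsPathSystem (G : SimpleGraph V) (P : V → V → List V) : Prop :=
  (∀ u v, IsSimplePath G u v (P u v)) ∧ ∀ u v, P v u = (P u v).reverse

/-- Consistency: for every segment `l` of `P u v`, with end vertices `x` and `y`, we have
`P x y = l`. -/
def Consistent (P : V → V → List V) : Prop :=
  ∀ u v (l : List V), l <:+: P u v → ∀ x y, l.head? = some x → l.getLast? = some y → P x y = l

/-- The weight of a path: the sum of the weights of its edges. -/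
def weight (w : Sym2 V → ℝ) (l : List V) : ℝ :=
  (List.zipWith (fun a b => w s(a, b)) l l.tail).sum

/-- Metrizability: for some positive edge weights every path of the system is a shortest path. -/
def Metrizable (G : SimpleGraph V) (P : V → V → List V) : Prop :=
  ∃ w : Sym2 V → ℝ, (∀ e ∈ G.edgeSet, 0 < w e) ∧
    ∀ u v (Q : List V), IsSimplePath G u v Q → weight w (P u v) ≤ weight w Q

/-- A reduction: a partition of the vertex set in two nonempty parts, each closed under the path
system. -/
def IsReduction (P : V → V → List V) (A B : Set V) : Prop :=
  A ∪ B = Set.univ ∧ Disjoint A B ∧ A.Nonempty ∧ B.Nonempty ∧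
    (∀ u ∈ A, ∀ v ∈ A, ∀ x ∈ P u v, x ∈ A) ∧ (∀ u ∈ B, ∀ v ∈ B, ∀ x ∈ P u v, x ∈ B)

/-- `G` admits a consistent path system which is irreducible and not metrizable. -/
def Good (G : SimpleGraph V) : Prop :=
  ∃ P : V → V → List V, IsPathSystem G P ∧ Consistent P ∧ (¬ ∃ A B, IsReduction P A B) ∧
    ¬ Metrizable G P

/-- The probability that `G(n,1/2)` (a uniformly random labelled graph on `n` vertices) admits a
consistent, irreducible and non-metrizable path system tends to `1`. -/
theorem result : Tendsto (fun n : ℕ => (Nat.card {G : SimpleGraph (Fin n) // Good G} : ℝ) /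
    Nat.card (SimpleGraph (Fin n))) atTop (𝓝 1) :=
  Pool.Agent.X322.Met.main

end Pool.Agent.Results.MP_696e10_co.IrreducibleNonmetrizable
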